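import Pool.Agent.R369.Spin.Main

/-!
# MP_aa0c4d_al, Q1: the strongly reversible elements of the compact spinor groups

`SpinGroup n` is the group of all products of an even number of unit vectors of `ℝⁿ` inside the
Clifford algebra `C n` of the form `v ↦ -‖v‖²`.  For an element `x` conjugate to the normal form
with parameters `lam j, mu j` (`j < n/2`) we determine whether `x` is strongly reversible in terms
of `n`, the number `a` of planes with `lam j = 0` and the number `b` of planes with `mu j = 0`.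
(Formalisation of a paper proof of helper801.)
-/

namespace Pool.Agent.Results.MP_aa0c4d_al.Criterion

open Pool.Agent.R369.Spin

noncomputable section

/-- `ℝⁿ` with its Euclidean norm. -/
def E (n : ℕ) : Type := EuclideanSpace ℝ (Fin n)

instance instE (n : ℕ) : NormedAddCommGroup (E n) :=
  (inferInstance : NormedAddCommGroup (EuclideanSpace ℝ (Fin n)))

instance instE' (n : ℕ) : InnerProductSpace ℝ (E n) :=
  (inferInstance : InnerProductSpace ℝ (EuclideanSpace ℝ (Fin n)))

/-- The Clifford algebra `C_n` of `ℝⁿ` with the form `v ↦ -‖v‖²`, so `e_i² = -1`. -/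
def C (n : ℕ) : Type := Cl (E n)

instance instC (n : ℕ) : Ring (C n) := (inferInstance : Ring (Cl (E n)))

instance instC' (n : ℕ) : Algebra ℝ (C n) := (inferInstance : Algebra ℝ (Cl (E n)))

/-- The inclusion of `ℝⁿ` in `C_n`. -/
def inc {n : ℕ} (v : E n) : C n := vec v

/-- The standard basis vector number `i` (indices starting from `0`). -/
def stdVec (n : ℕ) (i : Fin n) : E n := EuclideanSpace.single i (1 : ℝ)

/-- The generator `e_i` (indices starting from `0`). -/
def e (n : ℕ) (i : Fin n) : C n := inc (stdVec n i)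

/-- `Spin(n)`: the products of an even number of unit vectors (a subgroup of the units of the
Clifford algebra). -/
def SpinGroup (n : ℕ) : Type := Spin (E n)

instance instS (n : ℕ) : Group (SpinGroup n) := (inferInstance : Group (Spin (E n)))

/-- An element of `Spin(n)` seen in the Clifford algebra. -/
def toC {n : ℕ} (x : SpinGroup n) : C n := Units.val (Subtype.val x)

theorem lo_lt {n : ℕ} (j : Fin (n / 2)) : 2 * (j : ℕ) < n := by omega

theorem hi_lt {n : ℕ} (j : Fin (n / 2)) : 2 * (j : ℕ) + 1 < n := by omega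

/-- The element `l + u e_{2j} e_{2j+1}` (indices from `0`). -/
def factor (n : ℕ) (l u : ℝ) (j : Fin (n / 2)) : C n :=
  algebraMap ℝ (C n) l + u • (e n ⟨2 * j, lo_lt j⟩ * e n ⟨2 * j + 1, hi_lt j⟩)

/-- The normal form `∏_j (lam_j + mu_j e_{2j} e_{2j+1})`, `j < n/2` (indices from `0`). -/
def normalForm (n : ℕ) (lam mu : Fin (n / 2) → ℝ) : C n :=
  (List.ofFn (fun j : Fin (n / 2) => factor n (lam j) (mu j) j)).prod

/-- `x` is conjugate in `Spin(n)` to the normal form with parameters `lam, mu`. -/
def HasNormalForm {n : ℕ} (x : SpinGroup n) (lam mu : Fin (n / 2) → ℝ) : Prop :=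
  ∃ k : SpinGroup n, toC (k * x * k⁻¹) = normalForm n lam mu

/-- `x` is conjugated to its inverse by some `g` with `g² = 1`. -/
def StronglyReversible {n : ℕ} (x : SpinGroup n) : Prop :=
  ∃ g : SpinGroup n, g * g = 1 ∧ g * x * g⁻¹ = x⁻¹

/-- The number of `j` with `f j = 0`. -/
def zeros {m : ℕ} (f : Fin m → ℝ) : ℕ := (Finset.univ.filter (fun j => f j = 0)).card

/-- The criterion. -/
def Crit (n a b : ℕ) : Prop :=
  2 ≤ b ∨ (b = 1 ∧ (n % 2 = 1 ∨ 2 ≤ a ∨ n % 8 ≠ 4)) ∨
    (b = 0 ∧ n % 2 = 1 ∧ (2 ≤ a ∨ n % 8 = 1 ∨ n % 8 = 7)) ∨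
    (b = 0 ∧ n % 2 = 0 ∧ (n % 8 = 0 ∨ (2 ≤ a ∧ n % 4 = 0)))

/-- **MP_aa0c4d_al, Q1.** For `n ≥ 2` and real `lam_j, mu_j` with `lam_j² + mu_j² = 1` the normal
form is an element of `Spin(n)`, and an element `x` of `Spin(n)` conjugate to it is strongly
reversible if and only if `Crit n a b` holds, `a` and `b` being the numbers of `j` with
`lam_j = 0` and with `mu_j = 0`. -/
theorem result (n : ℕ) (hn : 2 ≤ n) (lam mu : Fin (n / 2) → ℝ)
    (h : ∀ j, lam j ^ 2 + mu j ^ 2 = 1) :
    (∃ X : SpinGroup n, toC X = normalForm n lam mu) ∧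
    ∀ x : SpinGroup n, HasNormalForm x lam mu →
      (StronglyReversible x ↔ Crit n (zeros lam) (zeros mu)) := by
  have key := Main.main n hn lam mu h
  have e1 : Main.normalForm n lam mu = normalForm n lam mu := rfl
  refine ⟨?_, ?_⟩
  · obtain ⟨X, hX⟩ := key.1
    exact ⟨X, hX⟩
  · intro x hx
    exact key.2 x hx

end

end Pool.Agent.Results.MP_aa0c4d_al.Criterion
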